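import Pool.Agent.Helper13.ZL.Stmts

/-!
MON: means of monomials.
-/

set_option autoImplicit false

open scoped Classical

namespace Pool.Agent.Helper13.ZL

open Finset IsDedekindDomain

/-- `P` lies over `v` -/
def MonOver {k F : Type} [Field k] [NumberField k] [Field F] [NumberField F] [Algebra k F]
    (v : Pl k) (P : Pl F) : Prop :=
  ∀ x : NumberField.RingOfIntegers k,
    algebraMap (NumberField.RingOfIntegers k) (NumberField.RingOfIntegers F) x ∈ P.asIdeal ↔
      x ∈ v.asIdeal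

section

variable {k F : Type} [Field k] [NumberField k] [Field F] [NumberField F] [Algebra k F]

lemma mon_alg (x : NumberField.RingOfIntegers k) :
    algebraMap k F (algebraMap (NumberField.RingOfIntegers k) k x) =
      algebraMap (NumberField.RingOfIntegers F) F
        (algebraMap (NumberField.RingOfIntegers k) (NumberField.RingOfIntegers F) x) := by
  rw [← IsScalarTower.algebraMap_apply (NumberField.RingOfIntegers k) k F,
    ← IsScalarTower.algebraMap_apply (NumberField.RingOfIntegers k)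
      (NumberField.RingOfIntegers F) F]

lemma mon_val0 {v : Pl k} {P : Pl F} (h : MonOver v P) (b : k) (hb : v.valuation k b ≤ 1) :
    P.valuation F (algebraMap k F b) ≤ 1 ∧
      (v.valuation k b < 1 ↔ P.valuation F (algebraMap k F b) < 1) := by
  obtain ⟨n, d, hnd⟩ := HeightOneSpectrum.exists_primeCompl_mul_eq_of_integer v b hb
  have hd : (d : NumberField.RingOfIntegers k) ∉ v.asIdeal := d.2
  have hd1 : v.valuation k (algebraMap _ k (d : NumberField.RingOfIntegers k)) = 1 :=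
    (HeightOneSpectrum.valuation_eq_one_iff_notMem v).2 hd
  have hd2 : P.valuation F (algebraMap k F (algebraMap _ k (d : NumberField.RingOfIntegers k))) =
      1 := by
    rw [mon_alg]
    exact (HeightOneSpectrum.valuation_eq_one_iff_notMem P).2 fun hc => hd ((h _).1 hc)
  have e1 : v.valuation k b = v.valuation k (algebraMap _ k n) := by
    rw [← hnd, map_mul, hd1, mul_one]
  have e2 : P.valuation F (algebraMap k F b) =
      P.valuation F (algebraMap k F (algebraMap _ k n)) := by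
    rw [← hnd, map_mul, map_mul, hd2, mul_one]
  rw [e1, e2, mon_alg]
  refine ⟨HeightOneSpectrum.valuation_le_one P _, ?_⟩
  rw [HeightOneSpectrum.valuation_lt_one_iff_mem, HeightOneSpectrum.valuation_lt_one_iff_mem]
  exact (h n).symm

lemma mon_val {v : Pl k} {P : Pl F} (h : MonOver v P) (b : k) :
    (v.valuation k b < 1 ↔ P.valuation F (algebraMap k F b) < 1) ∧
      (v.valuation k b = 1 ↔ P.valuation F (algebraMap k F b) = 1) := by
  rcases le_or_gt (v.valuation k b) 1 with hb | hb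
  · obtain ⟨h1, h2⟩ := mon_val0 h b hb
    refine ⟨h2, ?_, ?_⟩
    · intro h3
      refine le_antisymm h1 (not_lt.1 fun h4 => ?_)
      exact absurd h3 (h2.2 h4).ne
    · intro h3
      refine le_antisymm hb (not_lt.1 fun h4 => ?_)
      exact absurd h3 (h2.1 h4).ne
  · have hb0 : b ≠ 0 := by
      rintro rfl
      rw [map_zero] at hb
      exact absurd hb (not_lt.2 zero_le_one)
    have hinv : v.valuation k b⁻¹ < 1 := by
      rw [map_inv₀]
      exact inv_lt_one_of_one_lt₀ hb
    have h1 := (mon_val0 h b⁻¹ hinv.le).2.1 hinv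
    rw [map_inv₀, map_inv₀] at h1
    have hpos : 0 < P.valuation F (algebraMap k F b) := by
      rw [zero_lt_iff, Valuation.ne_zero_iff]
      exact (map_ne_zero _).2 hb0
    have h2 : 1 < P.valuation F (algebraMap k F b) := (inv_lt_one₀ hpos).1 h1
    exact ⟨⟨fun h3 => absurd h3 (not_lt.2 hb.le), fun h3 => absurd h3 (not_lt.2 h2.le)⟩,
      ⟨fun h3 => absurd h3 hb.ne', fun h3 => absurd h3 h2.ne'⟩⟩

/-- roots of unity of order prime to `P` are distinct modulo `P` -/
lemma mon_root (P : Pl F) {ℓ : ℕ} (hℓ : 0 < ℓ) {w : F} (hw : w ^ ℓ = 1) (hw1 : w ≠ 1)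
    (hℓP : P.valuation F (ℓ : F) = 1) : ¬ P.valuation F (w - 1) < 1 := by
  intro hlt
  have hvw : P.valuation F w = 1 := by
    have : P.valuation F w ^ ℓ = 1 := by rw [← map_pow, hw, map_one]
    exact (pow_eq_one_iff_of_nonneg zero_le (by omega)).1 this
  have hpow : ∀ i : ℕ, P.valuation F (1 - w ^ i) < 1 := by
    intro i
    induction i with
    | zero => simp
    | succ i ih =>
      have e : 1 - w ^ (i + 1) = w * (1 - w ^ i) + -(w - 1) := by ring
      rw [e]
      apply Valuation.map_add_lt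
      · rw [map_mul, hvw, one_mul]
        exact ih
      · rw [Valuation.map_neg]
        exact hlt
  have hgs : ∑ i ∈ range ℓ, w ^ i = 0 := by
    have := mul_geom_sum w ℓ
    rw [hw, sub_self] at this
    exact (mul_eq_zero.1 this).resolve_left (sub_ne_zero.2 hw1)
  have h1 : (ℓ : F) = ∑ i ∈ range ℓ, (1 - w ^ i) := by
    rw [sum_sub_distrib, hgs]
    simp
  have h2 : P.valuation F (ℓ : F) < 1 := by
    rw [h1]
    exact Valuation.map_sum_lt _ one_ne_zero fun i _ => hpow i
  exact h2.ne hℓP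

/-- an automorphism which preserves the valuation ring preserves its maximal ideal -/
lemma mon_tau [FiniteDimensional k F] (P : Pl F) (τ : F ≃ₐ[k] F)
    (hτ : ∀ x : F, P.valuation F x ≤ 1 → P.valuation F (τ x) ≤ 1) (x : F)
    (hx : P.valuation F x < 1) : P.valuation F (τ x) < 1 := by
  have hpow : ∀ (n : ℕ) (x : F), P.valuation F x ≤ 1 → P.valuation F ((τ ^ n) x) ≤ 1 := by
    intro n
    induction n with
    | zero =>
      intro x hx
      simpa using hx
    | succ n ih =>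
      intro x hx
      rw [pow_succ, AlgEquiv.mul_apply]
      exact ih _ (hτ _ hx)
  obtain ⟨n, hn, hn1⟩ := isOfFinOrder_iff_pow_eq_one.1 (isOfFinOrder_of_finite τ)
  by_contra hcon
  push Not at hcon
  have h0 : τ x ≠ 0 := by
    intro h0
    rw [h0, map_zero] at hcon
    exact absurd hcon (not_le.2 zero_lt_one)
  have hx0 : x ≠ 0 := by
    rintro rfl
    exact h0 (map_zero _)
  have h1 : P.valuation F (τ x)⁻¹ ≤ 1 := by
    rw [map_inv₀]
    exact inv_le_one_of_one_le₀ hcon
  have h2 := hpow (n - 1) _ h1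
  have h3 : (τ ^ (n - 1)) (τ x)⁻¹ = x⁻¹ := by
    rw [map_inv₀, ← AlgEquiv.mul_apply, ← pow_succ, Nat.sub_add_cancel hn, hn1, AlgEquiv.one_apply]
  rw [h3, map_inv₀] at h2
  have hpos : 0 < P.valuation F x := by
    rw [zero_lt_iff, Valuation.ne_zero_iff]
    exact hx0
  have h4 : 1 ≤ P.valuation F x := (inv_le_one₀ hpos).1 h2
  exact absurd hx (not_lt.2 h4)

lemma mon_q2 (v : Pl k) : 2 ≤ q v := by
  unfold q
  have h0 : Ideal.absNorm v.asIdeal ≠ 0 := by
    rw [Ne, Ideal.absNorm_eq_zero_iff]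
    exact v.ne_bot
  have h1 : Ideal.absNorm v.asIdeal ≠ 1 := by
    rw [Ne, Ideal.absNorm_eq_one_iff]
    exact v.isPrime.ne_top
  omega

lemma mon_fin (v : Pl k) : Finite (NumberField.RingOfIntegers k ⧸ v.asIdeal) := by
  rw [← Ideal.absNorm_ne_zero_iff]
  rw [Ne, Ideal.absNorm_eq_zero_iff]
  exact v.ne_bot

lemma mon_card (v : Pl k) : Nat.card (NumberField.RingOfIntegers k ⧸ v.asIdeal) = q v := rfl

/-- elements of the residue field fixed by the `q`-th power -/
lemma mon_res {v : Pl k} {P : Pl F} (h : MonOver v P) (z : NumberField.RingOfIntegers F)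
    (hz : z ^ (q v - 1) = 1) : ∃ y : NumberField.RingOfIntegers k,
      z - algebraMap _ (NumberField.RingOfIntegers F) y ∈ P.asIdeal := by
  have hq := mon_q2 v
  have := mon_fin v
  letI := Ideal.Quotient.field v.asIdeal
  letI : Fintype (NumberField.RingOfIntegers k ⧸ v.asIdeal) := Fintype.ofFinite _
  have hle : v.asIdeal ≤ P.asIdeal.comap (algebraMap (NumberField.RingOfIntegers k)
      (NumberField.RingOfIntegers F)) := fun x hx => (h x).2 hx
  let f := Ideal.quotientMap P.asIdeal (algebraMap (NumberField.RingOfIntegers k)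
      (NumberField.RingOfIntegers F)) hle
  have hf : Function.Injective f := f.injective
  have hcard : Fintype.card (NumberField.RingOfIntegers k ⧸ v.asIdeal) = q v := by
    rw [← Nat.card_eq_fintype_card]
    exact mon_card v
  set S := (univ.filter fun a : NumberField.RingOfIntegers k ⧸ v.asIdeal => a ≠ 0).image f
    with hS
  have hScard : S.card = q v - 1 := by
    rw [hS, card_image_of_injective _ hf, filter_ne', card_erase_of_mem (mem_univ _), card_univ,
      hcard]
  have hsub : S ⊆ (Polynomial.nthRoots (q v - 1)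
      (1 : NumberField.RingOfIntegers F ⧸ P.asIdeal)).toFinset := by
    intro b hb
    rw [hS, mem_image] at hb
    obtain ⟨a, ha, rfl⟩ := hb
    rw [Multiset.mem_toFinset, Polynomial.mem_nthRoots (by omega), ← map_pow]
    have := FiniteField.pow_card_sub_one_eq_one a (mem_filter.1 ha).2
    rw [hcard] at this
    rw [this, map_one]
  have hcard2 : (Polynomial.nthRoots (q v - 1)
      (1 : NumberField.RingOfIntegers F ⧸ P.asIdeal)).toFinset.card ≤ S.card := by
    rw [hScard]
    exact (Multiset.toFinset_card_le _).trans (Polynomial.card_nthRoots _ _)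
  have heq := Finset.eq_of_subset_of_card_le hsub hcard2
  have hmem : (Ideal.Quotient.mk P.asIdeal z) ∈ S := by
    rw [heq, Multiset.mem_toFinset, Polynomial.mem_nthRoots (by omega), ← map_pow, hz, map_one]
  rw [hS, mem_image] at hmem
  obtain ⟨a, _, ha⟩ := hmem
  obtain ⟨y, rfl⟩ := Ideal.Quotient.mk_surjective a
  refine ⟨y, ?_⟩
  rw [← Ideal.Quotient.eq]
  rw [← ha]
  exact Ideal.quotientMap_mk

/-- residue fields of the same cardinality -/
lemma mon_surj {v : Pl k} {P : Pl F} (h : MonOver v P) (hq : q P = q v)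
    (z : NumberField.RingOfIntegers F) : ∃ y : NumberField.RingOfIntegers k,
      z - algebraMap _ (NumberField.RingOfIntegers F) y ∈ P.asIdeal := by
  have := mon_fin v
  have := mon_fin P
  letI := Ideal.Quotient.field v.asIdeal
  have hle : v.asIdeal ≤ P.asIdeal.comap (algebraMap (NumberField.RingOfIntegers k)
      (NumberField.RingOfIntegers F)) := fun x hx => (h x).2 hx
  let f := Ideal.quotientMap P.asIdeal (algebraMap (NumberField.RingOfIntegers k)
      (NumberField.RingOfIntegers F)) hle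
  have hf : Function.Injective f := f.injective
  have hsurj : Function.Surjective f := by
    apply (Function.Injective.bijective_of_nat_card_le hf _).2
    rw [mon_card, mon_card, hq]
  obtain ⟨a, ha⟩ := hsurj (Ideal.Quotient.mk P.asIdeal z)
  obtain ⟨y, rfl⟩ := Ideal.Quotient.mk_surjective a
  refine ⟨y, ?_⟩
  rw [← Ideal.Quotient.eq]
  rw [← ha]
  exact Ideal.quotientMap_mk

lemma mon_near {v : Pl k} {P : Pl F} (h : MonOver v P) (b : k) :
    Near v b ↔ P.valuation F (algebraMap k F b - 1) < 1 := by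
  unfold Near
  rw [(mon_val h (b - 1)).1, map_sub, map_one]

end

lemma mon_one_lt {k : Type} [Field k] [NumberField k] (a : k) (ha : a ≠ 0) :
    {v : Pl k | v.valuation k a ≠ 1}.Finite := by
  have h1 := HeightOneSpectrum.Support.finite (NumberField.RingOfIntegers k) a
  have h2 := HeightOneSpectrum.Support.finite (NumberField.RingOfIntegers k) a⁻¹
  refine (h1.union h2).subset fun v hv => ?_
  have hv' : v.valuation k a ≠ 1 := hv
  rcases lt_or_gt_of_ne hv' with h3 | h3
  · right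
    change 1 < v.valuation k a⁻¹
    rw [map_inv₀]
    have hpos : 0 < v.valuation k a := by
      rw [zero_lt_iff, Valuation.ne_zero_iff]
      exact ha
    exact (one_lt_inv₀ hpos).2 h3
  · left
    exact h3

theorem st_MON (hS : ST_SPL) (hD : ST_DEG) : ST_MON := by
  intro k _ _ a Λ hΛ D₁ D₂ h1 h2 h12
  obtain ⟨F, _, _, _, _, ζ, θ, hdeg, hζ, hθ, hfaith⟩ := hD k a Λ hΛ D₁ D₂ h1 h2 h12
  have hfd : FiniteDimensional k F := Module.Finite.of_restrictScalars_finite ℚ k F
  have hpr : ∀ ℓ ∈ D₁ ∪ D₂, ℓ.Prime := by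
    intro ℓ hℓ
    rcases mem_union.1 hℓ with h | h
    · exact (hΛ ℓ (h1 h)).1
    · exact (hΛ ℓ (h2 h)).1
  have ha0 : ∀ ℓ ∈ D₂, a ℓ ≠ 0 := by
    intro ℓ hℓ h0
    apply (hΛ ℓ (h2 hℓ)).2.2.2 0
    rw [h0, zero_pow (hpr ℓ (mem_union_right _ hℓ)).ne_zero]
  set V : Set (Pl k) := {v | (∀ ℓ ∈ D₁, ℓ ∣ q v - 1) ∧
    ∀ ℓ ∈ D₂, ℓ ∣ q v - 1 ∧ ∃ t : k, Near v (a ℓ * t ^ ℓ)} with hV
  set B : Set (Pl k) := (⋃ ℓ ∈ D₁ ∪ D₂, {v : Pl k | v.valuation k (ℓ : k) ≠ 1}) ∪
    ⋃ ℓ ∈ D₂, {v : Pl k | v.valuation k (a ℓ) ≠ 1} with hB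
  have hBfin : B.Finite := by
    apply Set.Finite.union
    · apply Set.Finite.biUnion (finite_toSet (D₁ ∪ D₂))
      intro ℓ hℓ
      apply mon_one_lt
      have := (hpr ℓ hℓ).ne_zero
      exact_mod_cast this
    · apply Set.Finite.biUnion (finite_toSet D₂)
      intro ℓ hℓ
      exact mon_one_lt _ (ha0 ℓ hℓ)
  have hB1 : ∀ v : Pl k, v ∉ B → ∀ ℓ ∈ D₁ ∪ D₂, v.valuation k (ℓ : k) = 1 := by
    intro v hv ℓ hℓ
    by_contra hcon
    apply hv
    left
    simp only [Set.mem_iUnion]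
    exact ⟨ℓ, hℓ, hcon⟩
  have hB2 : ∀ v : Pl k, v ∉ B → ∀ ℓ ∈ D₂, v.valuation k (a ℓ) = 1 := by
    intro v hv ℓ hℓ
    by_contra hcon
    apply hv
    right
    simp only [Set.mem_iUnion]
    exact ⟨ℓ, hℓ, hcon⟩
  -- integral roots of unity
  have hζint : ∀ ℓ ∈ D₁ ∪ D₂, ∃ z : NumberField.RingOfIntegers F,
      algebraMap (NumberField.RingOfIntegers F) F z = ζ ℓ ∧ z ^ ℓ = 1 := by
    intro ℓ hℓ
    have hi : IsIntegral ℤ (ζ ℓ) := (hζ ℓ hℓ).isIntegral (hpr ℓ hℓ).pos
    refine ⟨⟨ζ ℓ, hi⟩, rfl, ?_⟩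
    apply NumberField.RingOfIntegers.ext
    push_cast
    exact (hζ ℓ hℓ).pow_eq_one
  have hmean := hS k F V B hBfin ?_ ?_
  · -- the function and the degree
    have e1 : (fun v : Pl k => (∏ ℓ ∈ D₁, al ℓ v) * ∏ ℓ ∈ D₂, be a ℓ v) =
        fun v : Pl k => @ite ℝ (v ∈ V) (Classical.propDecidable (v ∈ V)) 1 0 := by
      funext v
      split_ifs with hv
      · have p1 : ∏ ℓ ∈ D₁, al ℓ v = 1 := by
          apply prod_eq_one
          intro ℓ hℓ
          unfold al
          rw [if_pos (hv.1 ℓ hℓ)]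
        have p2 : ∏ ℓ ∈ D₂, be a ℓ v = 1 := by
          apply prod_eq_one
          intro ℓ hℓ
          unfold be
          rw [if_pos (hv.2 ℓ hℓ)]
        rw [p1, p2, one_mul]
      · by_cases hv1 : ∀ ℓ ∈ D₁, ℓ ∣ q v - 1
        · have hv2 : ¬ ∀ ℓ ∈ D₂, ℓ ∣ q v - 1 ∧ ∃ t : k, Near v (a ℓ * t ^ ℓ) :=
            fun hc => hv ⟨hv1, hc⟩
          push Not at hv2
          obtain ⟨ℓ, hℓ, hℓ2⟩ := hv2
          have : ∏ ℓ ∈ D₂, be a ℓ v = 0 := by
            apply prod_eq_zero hℓ
            unfold be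
            rw [if_neg]
            rintro ⟨h3, t, h4⟩
            exact hℓ2 h3 t h4
          rw [this, mul_zero]
        · push Not at hv1
          obtain ⟨ℓ, hℓ, hℓ2⟩ := hv1
          have : ∏ ℓ ∈ D₁, al ℓ v = 0 := by
            apply prod_eq_zero hℓ
            unfold al
            rw [if_neg hℓ2]
          rw [this, zero_mul]
    have e2 : ((∏ ℓ ∈ D₁, 1 / ((ℓ : ℝ) - 1)) * ∏ ℓ ∈ D₂, 1 / ((ℓ : ℝ) * ((ℓ : ℝ) - 1))) =
        1 / (Module.finrank k F : ℝ) := by
      rw [hdeg]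
      push_cast
      rw [one_div, mul_inv, ← Finset.prod_inv_distrib, ← Finset.prod_inv_distrib]
      congr 1
      · apply prod_congr rfl
        intro ℓ hℓ
        rw [Nat.cast_sub (hpr ℓ (mem_union_left _ hℓ)).one_le, Nat.cast_one, one_div]
      · apply prod_congr rfl
        intro ℓ hℓ
        rw [Nat.cast_sub (hpr ℓ (mem_union_right _ hℓ)).one_le, Nat.cast_one, one_div]
    rw [e1, e2]
    exact hmean
  · -- completely split places
    intro v hv hvB P hP τ hτ
    have hP' : MonOver v P := hP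
    have hτM := mon_tau P τ hτ
    have hℓP : ∀ ℓ ∈ D₁ ∪ D₂, P.valuation F (ℓ : F) = 1 := by
      intro ℓ hℓ
      have := (mon_val hP' (ℓ : k)).2.1 (hB1 v hvB ℓ hℓ)
      rwa [map_natCast] at this
    have hdvd : ∀ ℓ ∈ D₁ ∪ D₂, ℓ ∣ q v - 1 := by
      intro ℓ hℓ
      rcases mem_union.1 hℓ with h | h
      · exact hv.1 ℓ h
      · exact (hv.2 ℓ h).1
    have hroot1 : ∀ ℓ ∈ D₁ ∪ D₂, P.valuation F (ζ ℓ) = 1 := by
      intro ℓ hℓ
      have : P.valuation F (ζ ℓ) ^ ℓ = 1 := by
        rw [← map_pow, (hζ ℓ hℓ).pow_eq_one, map_one]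
      exact (pow_eq_one_iff_of_nonneg zero_le (hpr ℓ hℓ).ne_zero).1 this
    have hτζ : ∀ ℓ ∈ D₁ ∪ D₂, τ (ζ ℓ) = ζ ℓ := by
      intro ℓ hℓ
      obtain ⟨z, hz1, hz2⟩ := hζint ℓ hℓ
      obtain ⟨y, hy⟩ := mon_res hP' z (by
        obtain ⟨c, hc⟩ := hdvd ℓ hℓ
        rw [hc, pow_mul, hz2, one_pow])
      have h3 : P.valuation F (ζ ℓ - algebraMap k F (algebraMap _ k y)) < 1 := by
        rw [mon_alg, ← hz1, ← map_sub, HeightOneSpectrum.valuation_lt_one_iff_mem]
        exact hy
      have h4 := hτM _ h3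
      rw [map_sub, AlgEquiv.commutes] at h4
      have h5 : P.valuation F (τ (ζ ℓ) - ζ ℓ) < 1 := by
        have e : τ (ζ ℓ) - ζ ℓ = (τ (ζ ℓ) - algebraMap k F (algebraMap _ k y)) +
            -(ζ ℓ - algebraMap k F (algebraMap _ k y)) := by ring
        rw [e]
        apply Valuation.map_add_lt _ h4
        rw [Valuation.map_neg]
        exact h3
      have hne : ζ ℓ ≠ 0 := (hζ ℓ hℓ).ne_zero (hpr ℓ hℓ).ne_zero
      by_contra hcon
      apply mon_root P (hpr ℓ hℓ).pos (w := τ (ζ ℓ) / ζ ℓ) _ _ (hℓP ℓ hℓ)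
      · have e : τ (ζ ℓ) / ζ ℓ - 1 = (τ (ζ ℓ) - ζ ℓ) / ζ ℓ := by
          rw [sub_div, div_self hne]
        rw [e, map_div₀, hroot1 ℓ hℓ, div_one]
        exact h5
      · rw [div_pow, ← map_pow, (hζ ℓ hℓ).pow_eq_one, map_one, div_one]
      · intro h6
        exact hcon ((div_eq_one_iff_eq hne).1 h6)
    refine hfaith τ hτζ fun ℓ hℓ => ?_
    have hℓ' : ℓ ∈ D₁ ∪ D₂ := mem_union_right _ hℓ
    have hℓ0 : ℓ ≠ 0 := (hpr ℓ hℓ').ne_zero
    obtain ⟨_, t, ht⟩ := hv.2 ℓ hℓ
    have hvθ : P.valuation F (θ ℓ) = 1 := by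
      have : P.valuation F (θ ℓ) ^ ℓ = 1 := by
        rw [← map_pow, hθ ℓ hℓ]
        exact (mon_val hP' (a ℓ)).2.1 (hB2 v hvB ℓ hℓ)
      exact (pow_eq_one_iff_of_nonneg zero_le hℓ0).1 this
    have hθ0 : θ ℓ ≠ 0 := by
      intro h0
      rw [h0, map_zero] at hvθ
      exact zero_ne_one hvθ
    have h3 : P.valuation F ((θ ℓ * algebraMap k F t) ^ ℓ - 1) < 1 := by
      have := (mon_near hP' _).1 ht
      rwa [map_mul, map_pow, ← hθ ℓ hℓ, ← mul_pow] at this
    have hvx : P.valuation F (θ ℓ * algebraMap k F t) = 1 := by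
      have h4 : P.valuation F ((θ ℓ * algebraMap k F t) ^ ℓ) = 1 := by
        have e : (θ ℓ * algebraMap k F t) ^ ℓ = ((θ ℓ * algebraMap k F t) ^ ℓ - 1) + 1 := by ring
        rw [e, Valuation.map_add_eq_of_lt_right]
        · exact map_one _
        · rw [map_one]
          exact h3
      rw [map_pow] at h4
      exact (pow_eq_one_iff_of_nonneg zero_le hℓ0).1 h4
    have hvt : P.valuation F (algebraMap k F t) = 1 := by
      rwa [map_mul, hvθ, one_mul] at hvx
    -- one of the factors is small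
    obtain ⟨j, hj⟩ : ∃ j : ℕ, P.valuation F (θ ℓ * algebraMap k F t - ζ ℓ ^ j) < 1 := by
      by_contra hcon
      push Not at hcon
      have e := (hζ ℓ hℓ').pow_sub_pow_eq_prod_sub_mul (θ ℓ * algebraMap k F t) 1 (hpr ℓ hℓ').pos
      rw [one_pow] at e
      rw [e, map_prod] at h3
      have h4 : ∀ μ ∈ Polynomial.nthRootsFinset ℓ (1 : F),
          1 ≤ P.valuation F (θ ℓ * algebraMap k F t - μ * 1) := by
        intro μ hμ
        rw [Polynomial.mem_nthRootsFinset (hpr ℓ hℓ').pos] at hμ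
        haveI : NeZero ℓ := ⟨hℓ0⟩
        obtain ⟨i, _, hi⟩ := (hζ ℓ hℓ').eq_pow_of_pow_eq_one hμ
        rw [mul_one, ← hi]
        exact hcon i
      have h5 : 1 ≤ ∏ μ ∈ Polynomial.nthRootsFinset ℓ (1 : F),
          P.valuation F (θ ℓ * algebraMap k F t - μ * 1) := Finset.one_le_prod' h4
      exact absurd h3 (not_lt.2 h5)
    have h4 := hτM _ hj
    rw [map_sub, map_mul, map_pow, hτζ ℓ hℓ', AlgEquiv.commutes] at h4
    have h5 : P.valuation F ((τ (θ ℓ) - θ ℓ) * algebraMap k F t) < 1 := by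
      have e : (τ (θ ℓ) - θ ℓ) * algebraMap k F t =
          (τ (θ ℓ) * algebraMap k F t - ζ ℓ ^ j) + -(θ ℓ * algebraMap k F t - ζ ℓ ^ j) := by ring
      rw [e]
      apply Valuation.map_add_lt _ h4
      rw [Valuation.map_neg]
      exact hj
    rw [map_mul, hvt, mul_one] at h5
    by_contra hcon
    apply mon_root P (hpr ℓ hℓ').pos (w := τ (θ ℓ) / θ ℓ) _ _ (hℓP ℓ hℓ')
    · have e : τ (θ ℓ) / θ ℓ - 1 = (τ (θ ℓ) - θ ℓ) / θ ℓ := by
        rw [sub_div, div_self hθ0]
      rw [e, map_div₀, hvθ, div_one]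
      exact h5
    · rw [div_pow, ← map_pow, hθ ℓ hℓ, AlgEquiv.commutes, div_self]
      exact (map_ne_zero _).2 (ha0 ℓ hℓ)
    · intro h6
      exact hcon ((div_eq_one_iff_eq hθ0).1 h6)
  · -- residue degree one
    intro v hvB P hP hqP
    have hP' : MonOver v P := hP
    have hℓP : ∀ ℓ ∈ D₁ ∪ D₂, P.valuation F (ℓ : F) = 1 := by
      intro ℓ hℓ
      have := (mon_val hP' (ℓ : k)).2.1 (hB1 v hvB ℓ hℓ)
      rwa [map_natCast] at this
    have hdvd : ∀ ℓ ∈ D₁ ∪ D₂, ℓ ∣ q v - 1 := by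
      intro ℓ hℓ
      obtain ⟨z, hz1, hz2⟩ := hζint ℓ hℓ
      have := mon_fin P
      let _ := Ideal.Quotient.field P.asIdeal
      let _ : Fintype (NumberField.RingOfIntegers F ⧸ P.asIdeal) := Fintype.ofFinite _
      have hcard : Fintype.card (NumberField.RingOfIntegers F ⧸ P.asIdeal) = q P := by
        rw [← Nat.card_eq_fintype_card]
        exact mon_card P
      have hpow : (Ideal.Quotient.mk P.asIdeal z) ^ ℓ = 1 := by
        rw [← map_pow, hz2, map_one]
      have hne1 : Ideal.Quotient.mk P.asIdeal z ≠ 1 := by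
        intro h3
        have h4 : z - 1 ∈ P.asIdeal := by
          rw [← Ideal.Quotient.eq, h3, map_one]
        have h5 : P.valuation F (ζ ℓ - 1) < 1 := by
          rw [← hz1, ← map_one (algebraMap (NumberField.RingOfIntegers F) F), ← map_sub,
            HeightOneSpectrum.valuation_lt_one_iff_mem]
          exact h4
        exact mon_root P (hpr ℓ hℓ).pos (hζ ℓ hℓ).pow_eq_one
          ((hζ ℓ hℓ).ne_one (hpr ℓ hℓ).one_lt) (hℓP ℓ hℓ) h5
      have hne0 : Ideal.Quotient.mk P.asIdeal z ≠ 0 := by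
        intro h0
        rw [h0, zero_pow (hpr ℓ hℓ).ne_zero] at hpow
        exact zero_ne_one hpow
      have : Fact ℓ.Prime := ⟨hpr ℓ hℓ⟩
      have hord : orderOf (Ideal.Quotient.mk P.asIdeal z) = ℓ := orderOf_eq_prime hpow hne1
      have h6 := FiniteField.pow_card_sub_one_eq_one _ hne0
      rw [hcard, hqP] at h6
      have h7 := orderOf_dvd_of_pow_eq_one h6
      rwa [hord] at h7
    refine ⟨fun ℓ hℓ => hdvd ℓ (mem_union_left _ hℓ), fun ℓ hℓ =>
      ⟨hdvd ℓ (mem_union_right _ hℓ), ?_⟩⟩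
    have hℓ' : ℓ ∈ D₁ ∪ D₂ := mem_union_right _ hℓ
    have hℓ0 : ℓ ≠ 0 := (hpr ℓ hℓ').ne_zero
    have hvθ : P.valuation F (θ ℓ) = 1 := by
      have : P.valuation F (θ ℓ) ^ ℓ = 1 := by
        rw [← map_pow, hθ ℓ hℓ]
        exact (mon_val hP' (a ℓ)).2.1 (hB2 v hvB ℓ hℓ)
      exact (pow_eq_one_iff_of_nonneg zero_le hℓ0).1 this
    have hθ0 : θ ℓ ≠ 0 := by
      intro h0
      rw [h0, map_zero] at hvθ
      exact zero_ne_one hvθ
    obtain ⟨w, hw⟩ := HeightOneSpectrum.exists_valuation_sub_lt_of_integer P (x := (θ ℓ)⁻¹)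
      (by rw [map_inv₀, hvθ, inv_one]) 1
    obtain ⟨y, hy⟩ := mon_surj hP' hqP w
    refine ⟨algebraMap _ k y, ?_⟩
    rw [mon_near hP', map_mul, map_pow, ← hθ ℓ hℓ, ← mul_pow]
    have h3 : P.valuation F (algebraMap k F (algebraMap _ k y) - (θ ℓ)⁻¹) < 1 := by
      have e : algebraMap k F (algebraMap _ k y) - (θ ℓ)⁻¹ =
          (algebraMap (NumberField.RingOfIntegers F) F w - (θ ℓ)⁻¹) +
          -(algebraMap (NumberField.RingOfIntegers F) F w -
            algebraMap k F (algebraMap _ k y)) := by ring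
      rw [e]
      apply Valuation.map_add_lt
      · simpa using hw
      · rw [Valuation.map_neg, mon_alg, ← map_sub, HeightOneSpectrum.valuation_lt_one_iff_mem]
        exact hy
    have h4 : P.valuation F (θ ℓ * algebraMap k F (algebraMap _ k y) - 1) < 1 := by
      have e : θ ℓ * algebraMap k F (algebraMap _ k y) - 1 =
          θ ℓ * (algebraMap k F (algebraMap _ k y) - (θ ℓ)⁻¹) := by
        rw [mul_sub, mul_inv_cancel₀ hθ0]
      rw [e, map_mul, hvθ, one_mul]
      exact h3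
    set x := θ ℓ * algebraMap k F (algebraMap _ k y) with hx
    have hvx : P.valuation F x ≤ 1 := by
      have e : x = (x - 1) + 1 := by ring
      rw [e]
      refine (Valuation.map_add _ _ _).trans (max_le h4.le ?_)
      rw [map_one]
    have h5 : x ^ ℓ - 1 = (x - 1) * ∑ i ∈ range ℓ, x ^ i := (mul_geom_sum x ℓ).symm
    rw [h5, map_mul]
    have h6 : P.valuation F (∑ i ∈ range ℓ, x ^ i) ≤ 1 := by
      apply Valuation.map_sum_le
      intro i _
      rw [map_pow]
      exact pow_le_one₀ zero_le hvx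
    calc P.valuation F (x - 1) * P.valuation F (∑ i ∈ range ℓ, x ^ i)
        ≤ P.valuation F (x - 1) * 1 := mul_le_mul_right h6 _
      _ < 1 := by rw [mul_one]; exact h4

end Pool.Agent.Helper13.ZL
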