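import Pool.Agent.Helper13.ZL.Stmts

/-!
SIE and DEN: the sieve.
-/

set_option autoImplicit false

open scoped Classical

namespace Pool.Agent.Helper13.ZL

open Finset Filter Topology

lemma sie_add {k : Type} [Field k] [NumberField k] {φ ψ : Pl k → ℝ} {m m' : ℝ}
    (h : HasMean φ m) (h' : HasMean ψ m') : HasMean (fun v => φ v + ψ v) (m + m') := by
  obtain ⟨C, hC⟩ := h
  obtain ⟨C', hC'⟩ := h'
  refine ⟨C + C', fun s hs1 hs2 => ?_⟩
  obtain ⟨h1, h2⟩ := hC s hs1 hs2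
  obtain ⟨h3, h4⟩ := hC' s hs1 hs2
  have e : (fun v : Pl k => (φ v + ψ v) * (q v : ℝ) ^ (-s)) =
      fun v => φ v * (q v : ℝ) ^ (-s) + ψ v * (q v : ℝ) ^ (-s) := by
    funext v
    ring
  rw [e]
  refine ⟨h1.add h3, ?_⟩
  rw [h1.tsum_add h3]
  have e2 : (∑' v : Pl k, φ v * (q v : ℝ) ^ (-s)) + (∑' v : Pl k, ψ v * (q v : ℝ) ^ (-s)) -
      (m + m') * Real.log (1 / (s - 1)) =
      ((∑' v : Pl k, φ v * (q v : ℝ) ^ (-s)) - m * Real.log (1 / (s - 1))) +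
      ((∑' v : Pl k, ψ v * (q v : ℝ) ^ (-s)) - m' * Real.log (1 / (s - 1))) := by ring
  rw [e2]
  exact (abs_add_le _ _).trans (add_le_add h2 h4)

lemma sie_neg {k : Type} [Field k] [NumberField k] {φ : Pl k → ℝ} {m : ℝ}
    (h : HasMean φ m) : HasMean (fun v => -φ v) (-m) := by
  obtain ⟨C, hC⟩ := h
  refine ⟨C, fun s hs1 hs2 => ?_⟩
  obtain ⟨h1, h2⟩ := hC s hs1 hs2
  have e : (fun v : Pl k => -φ v * (q v : ℝ) ^ (-s)) =
      fun v => -(φ v * (q v : ℝ) ^ (-s)) := by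
    funext v
    ring
  rw [e]
  refine ⟨h1.neg, ?_⟩
  rw [tsum_neg]
  have e2 : -(∑' v : Pl k, φ v * (q v : ℝ) ^ (-s)) - -m * Real.log (1 / (s - 1)) =
      -((∑' v : Pl k, φ v * (q v : ℝ) ^ (-s)) - m * Real.log (1 / (s - 1))) := by ring
  rw [e2, abs_neg]
  exact h2

lemma sie_ind (hM : ST_MON) (k : Type) [Field k] [NumberField k] (a : ℕ → k) (Λ : Finset ℕ)
    (hΛ : GoodL a Λ) (M : Finset ℕ) : M ⊆ Λ → ∀ D₁ D₂ : Finset ℕ, D₁ ⊆ Λ → D₂ ⊆ Λ →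
      Disjoint D₁ D₂ → Disjoint D₁ M → Disjoint D₂ M →
      HasMean (fun v : Pl k => ((∏ ℓ ∈ D₁, al ℓ v) * ∏ ℓ ∈ D₂, be a ℓ v) *
        ∏ ℓ ∈ M, (1 - al ℓ v + be a ℓ v))
        (((∏ ℓ ∈ D₁, 1 / ((ℓ : ℝ) - 1)) * ∏ ℓ ∈ D₂, 1 / ((ℓ : ℝ) * ((ℓ : ℝ) - 1))) *
          ∏ ℓ ∈ M, (1 - 1 / (ℓ : ℝ))) := by
  induction M using Finset.induction_on with
  | empty =>
    intro _ D₁ D₂ h1 h2 h12 _ _
    simp only [Finset.prod_empty, mul_one]
    exact hM k a Λ hΛ D₁ D₂ h1 h2 h12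
  | insert ℓ M hℓ ih =>
    intro hMΛ D₁ D₂ h1 h2 h12 h1M h2M
    have hℓΛ : ℓ ∈ Λ := hMΛ (mem_insert_self _ _)
    have hM' : M ⊆ Λ := (subset_insert _ _).trans hMΛ
    rw [disjoint_insert_right] at h1M h2M
    obtain ⟨hp, hℓ2, _, _⟩ := hΛ ℓ hℓΛ
    have hA := ih hM' D₁ D₂ h1 h2 h12 h1M.2 h2M.2
    have hB := ih hM' (insert ℓ D₁) D₂ (insert_subset hℓΛ h1) h2
      (disjoint_insert_left.2 ⟨h2M.1, h12⟩) (disjoint_insert_left.2 ⟨hℓ, h1M.2⟩) h2M.2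
    have hC := ih hM' D₁ (insert ℓ D₂) h1 (insert_subset hℓΛ h2)
      (disjoint_insert_right.2 ⟨h1M.1, h12⟩) h1M.2 (disjoint_insert_left.2 ⟨hℓ, h2M.2⟩)
    have hsum := sie_add (sie_add hA (sie_neg hB)) hC
    have hl1 : (ℓ : ℝ) - 1 ≠ 0 := by
      have : (2 : ℝ) < ℓ := by exact_mod_cast hℓ2
      linarith
    have hl0 : (ℓ : ℝ) ≠ 0 := by
      have : (2 : ℝ) < ℓ := by exact_mod_cast hℓ2
      linarith
    have e1 : (fun v : Pl k => ((∏ ℓ ∈ D₁, al ℓ v) * ∏ ℓ ∈ D₂, be a ℓ v) *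
        ∏ ℓ ∈ insert ℓ M, (1 - al ℓ v + be a ℓ v)) =
        fun v : Pl k => ((∏ ℓ ∈ D₁, al ℓ v) * ∏ ℓ ∈ D₂, be a ℓ v) *
          ∏ ℓ ∈ M, (1 - al ℓ v + be a ℓ v) +
          -(((∏ ℓ ∈ insert ℓ D₁, al ℓ v) * ∏ ℓ ∈ D₂, be a ℓ v) *
            ∏ ℓ ∈ M, (1 - al ℓ v + be a ℓ v)) +
          ((∏ ℓ ∈ D₁, al ℓ v) * ∏ ℓ ∈ insert ℓ D₂, be a ℓ v) *
            ∏ ℓ ∈ M, (1 - al ℓ v + be a ℓ v) := by
      funext v
      rw [prod_insert hℓ, prod_insert h1M.1, prod_insert h2M.1]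
      ring
    have e2 : (((∏ ℓ ∈ D₁, 1 / ((ℓ : ℝ) - 1)) * ∏ ℓ ∈ D₂, 1 / ((ℓ : ℝ) * ((ℓ : ℝ) - 1))) *
          ∏ ℓ ∈ insert ℓ M, (1 - 1 / (ℓ : ℝ))) =
        ((∏ ℓ ∈ D₁, 1 / ((ℓ : ℝ) - 1)) * ∏ ℓ ∈ D₂, 1 / ((ℓ : ℝ) * ((ℓ : ℝ) - 1))) *
          ∏ ℓ ∈ M, (1 - 1 / (ℓ : ℝ)) +
        -(((∏ ℓ ∈ insert ℓ D₁, 1 / ((ℓ : ℝ) - 1)) *
          ∏ ℓ ∈ D₂, 1 / ((ℓ : ℝ) * ((ℓ : ℝ) - 1))) * ∏ ℓ ∈ M, (1 - 1 / (ℓ : ℝ))) +
        ((∏ ℓ ∈ D₁, 1 / ((ℓ : ℝ) - 1)) *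
          ∏ ℓ ∈ insert ℓ D₂, 1 / ((ℓ : ℝ) * ((ℓ : ℝ) - 1))) * ∏ ℓ ∈ M, (1 - 1 / (ℓ : ℝ)) := by
      rw [prod_insert hℓ, prod_insert h1M.1, prod_insert h2M.1]
      have e3 : (1 - 1 / (ℓ : ℝ)) = 1 - 1 / ((ℓ : ℝ) - 1) + 1 / ((ℓ : ℝ) * ((ℓ : ℝ) - 1)) := by
        field_simp
        ring
      rw [e3]
      ring
    rw [e1, e2]
    exact hsum

theorem st_SIE (hM : ST_MON) : ST_SIE := by
  intro k _ _ a Λ hΛ
  have h := sie_ind hM k a Λ hΛ Λ (Subset.refl _) ∅ ∅ (empty_subset _) (empty_subset _)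
    (disjoint_empty_left _) (disjoint_empty_left _) (disjoint_empty_left _)
  simpa using h

lemma den_log : Tendsto (fun s : ℝ => Real.log (1 / (s - 1))) (𝓝[>] 1) atTop := by
  apply Real.tendsto_log_atTop.comp
  have h1 : Tendsto (fun s : ℝ => s - 1) (𝓝[>] 1) (𝓝[>] 0) := by
    apply tendsto_nhdsWithin_of_tendsto_nhds_of_eventually_within
    · have : Tendsto (fun s : ℝ => s - 1) (𝓝 1) (𝓝 (1 - 1)) :=
        (continuous_id.sub continuous_const).tendsto 1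
      rw [sub_self] at this
      exact this.mono_left nhdsWithin_le_nhds
    · filter_upwards [self_mem_nhdsWithin] with s hs
      have : (1 : ℝ) < s := hs
      simpa using this
  simp only [one_div]
  exact tendsto_inv_nhdsGT_zero.comp h1

lemma den_factor {k : Type} [Field k] [NumberField k] (a : ℕ → k) (ℓ : ℕ) (v : Pl k) :
    0 ≤ 1 - al ℓ v + be a ℓ v ∧ ((∃ t : k, Near v (a ℓ * t ^ ℓ)) → 1 - al ℓ v + be a ℓ v = 1) := by
  unfold al be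
  by_cases h1 : ℓ ∣ q v - 1 <;> by_cases h2 : ∃ t : k, Near v (a ℓ * t ^ ℓ) <;>
    simp [h1, h2]

theorem st_DEN (hP : ST_PZ) (hS : ST_SIE) : ST_DEN := by
  intro k _ _ S a Ls hLs hns hSL
  -- finite sets with small product
  have hd0 : NumberField.discr k ≠ 0 := NumberField.discr_ne_zero k
  have key : ∀ ε : ℝ, 0 < ε → ∃ Λ : Finset ℕ, (∀ ℓ ∈ Λ, ℓ ∈ Ls) ∧ GoodL a Λ ∧
      ∏ ℓ ∈ Λ, (1 - 1 / (ℓ : ℝ)) ≤ ε := by
    intro ε hε
    set f : ℕ → ℝ := fun ℓ => if ℓ ∈ Ls ∧ 2 < ℓ ∧ IsCoprime (ℓ : ℤ) (NumberField.discr k)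
      then 1 / (ℓ : ℝ) else 0 with hf
    have hfn : ∀ ℓ, 0 ≤ f ℓ := by
      intro ℓ
      simp only [hf]
      split_ifs
      · positivity
      · exact le_rfl
    have hnsf : ¬ Summable f := by
      intro hsf
      apply hns
      have h1 : Summable (Ls.indicator fun ℓ : ℕ => 1 / (ℓ : ℝ)) := by
        set N : ℕ := 3 + (NumberField.discr k).natAbs with hN
        have h2 : Summable fun ℓ : ℕ => f (ℓ + N) := (summable_nat_add_iff N).2 hsf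
        rw [← summable_nat_add_iff N]
        refine h2.congr fun ℓ => ?_
        simp only [hf, Set.indicator_apply]
        by_cases hℓ : ℓ + N ∈ Ls
        · have h3 : 2 < ℓ + N := by omega
          have h4 : IsCoprime ((ℓ + N : ℕ) : ℤ) (NumberField.discr k) := by
            have hp := (hLs _ hℓ).1
            rw [Int.isCoprime_iff_gcd_eq_one, Int.gcd, Int.natAbs_natCast]
            change Nat.Coprime _ _
            rw [Nat.Prime.coprime_iff_not_dvd hp]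
            intro hdvd
            have := Nat.le_of_dvd (Int.natAbs_pos.2 hd0) hdvd
            omega
          rw [if_pos ⟨hℓ, h3, h4⟩, if_pos hℓ]
        · rw [if_neg (fun h => hℓ h.1), if_neg hℓ]
      exact (summable_subtype_iff_indicator (f := fun ℓ : ℕ => 1 / (ℓ : ℝ))).2 h1
    have htop : Tendsto (fun n => ∑ i ∈ range n, f i) atTop atTop :=
      (not_summable_iff_tendsto_nat_atTop_of_nonneg hfn).1 hnsf
    obtain ⟨n, hn⟩ := (htop.eventually_ge_atTop (-Real.log ε)).exists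
    set Λ := (range n).filter fun ℓ => ℓ ∈ Ls ∧ 2 < ℓ ∧
      IsCoprime (ℓ : ℤ) (NumberField.discr k) with hΛ
    have hmem : ∀ ℓ ∈ Λ, ℓ ∈ Ls ∧ 2 < ℓ ∧ IsCoprime (ℓ : ℤ) (NumberField.discr k) :=
      fun ℓ hℓ => (mem_filter.1 hℓ).2
    refine ⟨Λ, fun ℓ hℓ => (hmem ℓ hℓ).1, fun ℓ hℓ => ⟨(hLs ℓ (hmem ℓ hℓ).1).1,
      (hmem ℓ hℓ).2.1, (hmem ℓ hℓ).2.2, (hLs ℓ (hmem ℓ hℓ).1).2⟩, ?_⟩
    have h1 : ∏ ℓ ∈ Λ, (1 - 1 / (ℓ : ℝ)) ≤ ∏ ℓ ∈ Λ, Real.exp (-(1 / (ℓ : ℝ))) := by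
      apply Finset.prod_le_prod
      · intro ℓ hℓ
        have h2 : (2 : ℝ) < ℓ := by exact_mod_cast (hmem ℓ hℓ).2.1
        have h3 : 1 / (ℓ : ℝ) ≤ 1 := by
          rw [div_le_one (by linarith)]
          linarith
        linarith
      · intro ℓ _
        have := Real.add_one_le_exp (-(1 / (ℓ : ℝ)))
        linarith
    rw [← Real.exp_sum, sum_neg_distrib] at h1
    refine h1.trans ?_
    have h2 : ∑ ℓ ∈ Λ, 1 / (ℓ : ℝ) = ∑ i ∈ range n, f i := by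
      rw [hΛ, sum_filter]
    rw [h2]
    calc Real.exp (-∑ i ∈ range n, f i) ≤ Real.exp (Real.log ε) := Real.exp_le_exp.2 (by linarith)
      _ = ε := Real.exp_log hε
  unfold NumberField.Set.HasDirichletDensity
  rw [tendsto_order]
  constructor
  · intro b hb
    filter_upwards with s
    exact lt_of_lt_of_le hb (div_nonneg (NumberField.Set.primeIdealZetaSum_nonneg _ _)
      (NumberField.Set.primeIdealZetaSum_nonneg _ _))
  · intro ε hε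
    obtain ⟨Λ, hΛ1, hΛ2, hΛ3⟩ := key (ε / 4) (by positivity)
    obtain ⟨C, hC⟩ := hS k a Λ hΛ2
    obtain ⟨C', hC'⟩ := hP k
    have h2 : ∀ᶠ s : ℝ in 𝓝[>] 1, s ≤ 2 := by
      filter_upwards [Ioc_mem_nhdsGT (show (1 : ℝ) < 2 by norm_num)] with s hs
      exact hs.2
    filter_upwards [self_mem_nhdsWithin, h2, den_log.eventually_ge_atTop (|C'| + 1),
      den_log.eventually_ge_atTop ((|C| + ε * |C'|) * 4 / ε)] with s hs1 hs2 hs3 hs4
    have hs1' : (1 : ℝ) < s := hs1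
    obtain ⟨h3, h4⟩ := hC s hs1' hs2
    obtain ⟨h5, h6⟩ := hC' s hs1' hs2
    set L := Real.log (1 / (s - 1)) with hL
    have hden : L - |C'| ≤ NumberField.Set.primeIdealZetaSum (Set.univ : Set (Pl k)) s := by
      rw [NumberField.Set.primeIdealZetaSum_def,
        tsum_univ fun v : Pl k => (v.asIdeal.absNorm : ℝ) ^ (-s)]
      have e1 : (∑' v : Pl k, (1 : ℝ) * (q v : ℝ) ^ (-s)) =
          ∑' v : Pl k, (v.asIdeal.absNorm : ℝ) ^ (-s) := by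
        apply tsum_congr
        intro v
        rw [one_mul]
        rfl
      rw [e1] at h6
      have h7 := (abs_le.1 h6).1
      have h8 := le_abs_self C'
      linarith
    have hnum : NumberField.Set.primeIdealZetaSum S s ≤ ε / 4 * L + |C| := by
      rw [NumberField.Set.primeIdealZetaSum_def]
      have e1 : (∑' v : S, (v.1.asIdeal.absNorm : ℝ) ^ (-s)) =
          ∑' v : Pl k, S.indicator (fun v : Pl k => (q v : ℝ) ^ (-s)) v :=
        tsum_subtype S fun v : Pl k => (q v : ℝ) ^ (-s)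
      have hs5 : Summable fun v : Pl k => (q v : ℝ) ^ (-s) := by
        refine h5.congr fun v => ?_
        rw [one_mul]
      have h7 : ∑' v : Pl k, S.indicator (fun v : Pl k => (q v : ℝ) ^ (-s)) v ≤
          ∑' v : Pl k, (∏ ℓ ∈ Λ, (1 - al ℓ v + be a ℓ v)) * (q v : ℝ) ^ (-s) := by
        refine Summable.tsum_le_tsum (fun v => ?_) (hs5.indicator S) h3
        rw [Set.indicator_apply]
        split_ifs with hv
        · have : ∏ ℓ ∈ Λ, (1 - al ℓ v + be a ℓ v) = 1 := by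
            apply prod_eq_one
            intro ℓ hℓ
            exact (den_factor a ℓ v).2 (hSL v hv ℓ (hΛ1 ℓ hℓ))
          rw [this, one_mul]
        · apply mul_nonneg
          · exact prod_nonneg fun ℓ _ => (den_factor a ℓ v).1
          · positivity
      rw [e1]
      refine h7.trans ?_
      have h8 := (abs_le.1 h4).2
      have h9 := le_abs_self C
      have hL0 : 0 ≤ L := by
        have := abs_nonneg C'
        linarith
      have h10 := mul_le_mul_of_nonneg_right hΛ3 hL0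
      linarith
    have hpos : 0 < L - |C'| := by linarith
    rw [div_lt_iff₀ (by linarith)]
    have h11 : (|C| + ε * |C'|) * 4 ≤ L * ε := by
      rw [div_le_iff₀ hε] at hs4
      exact hs4
    have h12 : ε * (L - |C'|) ≤
        ε * NumberField.Set.primeIdealZetaSum (Set.univ : Set (Pl k)) s :=
      mul_le_mul_of_nonneg_left hden hε.le
    have h13 : 0 < L * ε := mul_pos (by linarith [abs_nonneg C']) hε
    have h14 : 0 ≤ ε * |C'| := by positivity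
    have h15 : 0 ≤ |C| := abs_nonneg C
    nlinarith

end Pool.Agent.Helper13.ZL
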